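import Pool.Agent.H563.AG.Sv

/-!
# The families of the representations `N = p + m`, `p < x` prime, `m` free of small prime factors
-/

set_option autoImplicit false

namespace Pool.Agent.H563.AG

open Finset
open Pool.Agent.K4H8.DP

open Classical in
/-- the primes `p < x`, `x / 4 < p`, such that `N - p` has no prime factor below `w` -/
noncomputable def PA (w x : ℝ) (N : ℕ) : Finset ℕ :=
  (range N).filter (fun p => p.Prime ∧ x / 4 < p ∧ (p : ℝ) < x ∧ ∀ q : ℕ, q.Prime → q ∣ N - p → w ≤ q)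

lemma mem_PA {w x : ℝ} {N p : ℕ} : p ∈ PA w x N ↔ p < N ∧ p.Prime ∧ x / 4 < p ∧ (p : ℝ) < x ∧
    ∀ q : ℕ, q.Prime → q ∣ N - p → w ≤ q := by
  classical
  unfold PA
  rw [mem_filter, mem_range]

open Classical in
/-- the primes `p < x` which are not congruent to `2` modulo the primes of `(3, z]` -/
noncomputable def RZ (z : ℕ) (x : ℝ) : Finset ℕ :=
  (range ⌈x⌉₊).filter (fun p => p.Prime ∧ (p : ℝ) < x ∧ ∀ l : ℕ, l.Prime → 3 < l → l ≤ z → p % l ≠ 2 % l)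

lemma mem_RZ {z : ℕ} {x : ℝ} {p : ℕ} : p ∈ RZ z x ↔ p.Prime ∧ (p : ℝ) < x ∧
    ∀ l : ℕ, l.Prime → 3 < l → l ≤ z → p % l ≠ 2 % l := by
  classical
  unfold RZ
  rw [mem_filter, mem_range]
  constructor
  · exact fun h => h.2
  · intro h
    exact ⟨Nat.lt_ceil.2 h.2.1, h⟩

/-- a prime is not divisible by smaller primes -/
lemma mod_ne {q l : ℕ} (hq : q.Prime) (hl : l.Prime) (h : l < q) : q % l ≠ 0 := by
  intro hd
  exact not_dvd_of_lt hq hl h (Nat.dvd_of_mod_eq_zero hd)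

/-- the parameters are large -/
lemma params (θ κ : ℝ) (hθ : 0 < θ) (hκ : 0 < κ) (hκ4 : κ ≤ 1 / 4) : ∃ X₀ : ℕ, ∀ X : ℕ, X₀ ≤ X → ∀ x : ℝ,
    (X : ℝ) ^ θ ≤ x → x ≤ X / 2 → 1 ≤ x ∧ 1 ≤ Real.log X ∧ (⌈x⌉₊ : ℝ) ≤ 2 * x ∧ θ * Real.log X ≤ Real.log ⌈x⌉₊ ∧
      (⌈x⌉₊ : ℝ) ^ κ ≤ x / 4 ∧ (⌈x⌉₊ : ℝ) ^ κ ≤ (X : ℝ) ^ κ ∧ (⌈x⌉₊ : ℝ) ^ κ ≤ x / Real.log X ^ 2 ∧
      Real.log X ≤ (⌈x⌉₊ : ℝ) ^ κ := by
  have ev1 := (tendsto_rpow_atTop hθ).eventually (Filter.eventually_ge_atTop (4096 : ℝ))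
  have ev2 := Real.tendsto_log_atTop.eventually_ge_atTop 1
  have ev3 := (isLittleO_log_rpow_rpow_atTop (2 : ℝ) (show (0 : ℝ) < θ / 4 by positivity)).bound one_pos
  have ev4 := (isLittleO_log_rpow_atTop (show (0 : ℝ) < θ * κ by positivity)).bound one_pos
  obtain ⟨x₀, hx₀⟩ := Filter.eventually_atTop.1 ((ev1.and ev2).and ((ev3.and ev4).and
    (Filter.eventually_ge_atTop (4 : ℝ))))
  refine ⟨⌈x₀⌉₊, fun X hX x hx1 hx2 => ?_⟩
  obtain ⟨⟨h1, h2⟩, ⟨h3, h4⟩, h5⟩ := hx₀ X ((Nat.le_ceil _).trans (by exact_mod_cast hX))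
  have hX0 : (0 : ℝ) < X := by linarith
  have hx4096 : 4096 ≤ x := h1.trans hx1
  have hx0 : 0 < x := by linarith
  obtain ⟨Y, hY⟩ : ∃ Y : ℝ, Y = (⌈x⌉₊ : ℝ) := ⟨_, rfl⟩
  rw [← hY]
  have hxY : x ≤ Y := by rw [hY]; exact Nat.le_ceil x
  have hYx : Y < x + 1 := by rw [hY]; exact Nat.ceil_lt_add_one hx0.le
  have hY0 : 0 < Y := by linarith
  have hY2 : Y ≤ 2 * x := by linarith
  have hY1 : 1 ≤ Y := by linarith
  have hlog : θ * Real.log X ≤ Real.log Y := by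
    rw [← Real.log_rpow hX0]
    exact Real.log_le_log (by positivity) (hx1.trans hxY)
  have hYk : Y ^ κ ≤ 2 * x ^ (1 / 4 : ℝ) := by
    calc Y ^ κ ≤ Y ^ (1 / 4 : ℝ) := Real.rpow_le_rpow_of_exponent_le hY1 hκ4
      _ ≤ (2 * x) ^ (1 / 4 : ℝ) := Real.rpow_le_rpow hY0.le hY2 (by norm_num)
      _ = 2 ^ (1 / 4 : ℝ) * x ^ (1 / 4 : ℝ) := Real.mul_rpow (by norm_num) hx0.le
      _ ≤ 2 * x ^ (1 / 4 : ℝ) := by
          apply mul_le_mul_of_nonneg_right _ (by positivity)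
          calc (2 : ℝ) ^ (1 / 4 : ℝ) ≤ 2 ^ (1 : ℝ) :=
                Real.rpow_le_rpow_of_exponent_le (by norm_num) (by norm_num)
            _ = 2 := Real.rpow_one 2
  obtain ⟨s, hs⟩ : ∃ s, s = x ^ (1 / 4 : ℝ) := ⟨_, rfl⟩
  rw [← hs] at hYk
  have hs4 : x = s ^ 4 := by
    rw [hs, ← Real.rpow_natCast, ← Real.rpow_mul hx0.le]
    norm_num
  have hs0 : 0 < s := by rw [hs]; positivity
  have hs8 : 8 ≤ s := by
    by_contra hcon
    push Not at hcon
    have : s ^ 4 < 8 ^ 4 := pow_lt_pow_left₀ hcon hs0.le (by norm_num)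
    rw [← hs4] at this
    linarith
  have hXs : (X : ℝ) ^ (θ / 4) ≤ s := by
    rw [hs]
    have : (X : ℝ) ^ (θ / 4) = ((X : ℝ) ^ θ) ^ (1 / 4 : ℝ) := by
      rw [← Real.rpow_mul hX0.le]
      congr 1
      ring
    rw [this]
    exact Real.rpow_le_rpow (by positivity) hx1 (by norm_num)
  rw [one_mul, Real.norm_of_nonneg (by positivity), Real.norm_of_nonneg (by positivity)] at h3 h4
  have hlog2 : Real.log X ^ 2 ≤ s := by
    have : Real.log X ^ (2 : ℝ) = Real.log X ^ 2 := by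
      rw [← Real.rpow_natCast]
      norm_num
    rw [this] at h3
    exact h3.trans hXs
  refine ⟨by linarith, h2, hY2, hlog, ?_, ?_, ?_, ?_⟩
  · refine hYk.trans ?_
    rw [hs4]
    have : 64 ≤ s ^ 2 := by nlinarith
    have : 512 ≤ s ^ 3 := by nlinarith
    nlinarith
  · apply Real.rpow_le_rpow hY0.le _ hκ.le
    linarith
  · refine hYk.trans ?_
    rw [le_div_iff₀ (by positivity)]
    calc 2 * s * Real.log X ^ 2 ≤ 2 * s * s := by gcongr
      _ ≤ x := by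
          rw [hs4]
          have : 64 ≤ s ^ 2 := by nlinarith
          nlinarith
  · refine h4.trans ?_
    calc (X : ℝ) ^ (θ * κ) = ((X : ℝ) ^ θ) ^ κ := Real.rpow_mul hX0.le _ _
      _ ≤ Y ^ κ := Real.rpow_le_rpow (by positivity) (hx1.trans hxY) hκ.le

/-- the bounds for the families -/
lemma fam (θ κ : ℝ) (hθ : 0 < θ) (hθ1 : θ ≤ 1) (hκ : 0 < κ) (hκ4 : κ ≤ 1 / 4) : ∃ K : ℝ, 0 < K ∧ ∃ X₀ : ℕ,
    ∀ X : ℕ, X₀ ≤ X → ∀ x : ℝ, (X : ℝ) ^ θ ≤ x → x ≤ X / 2 → ∀ w : ℝ, (X : ℝ) ^ κ < w →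
    (∀ N N' : ℕ, X < N → N < N' → ((PA w x N ∩ PA w x N').card : ℝ) ≤
      K * (x / Real.log X ^ 3 * (hh N * hh N' * hh (N' - N)))) ∧
    (∀ N N' : ℕ, X < N → N < N' → (((PA w x N).image (fun p => N - p) ∩ (PA w x N').image (fun p => N' - p)).card : ℝ) ≤
      K * (x / Real.log X ^ 3 * (hh N * hh N' * hh (N' - N)))) ∧
    (∀ N : ℕ, X < N → ((PA w x N).card : ℝ) ≤ K * (x / Real.log X ^ 2 * hh N)) ∧
    (∀ z : ℕ, 4 ≤ z → (z : ℝ) ≤ Real.log X → ((RZ z x).card : ℝ) ≤ K * (x / (Real.log X * Real.log z))) := by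
  classical
  obtain ⟨K, hK, Y₀, hY₀, hsv⟩ := sieves κ hκ
  obtain ⟨X₁, hpar⟩ := params θ κ hθ hκ hκ4
  obtain ⟨X₂, hX₂⟩ := Filter.eventually_atTop.1 ((tendsto_rpow_atTop hθ).eventually
    (Filter.eventually_ge_atTop (Y₀ : ℝ)))
  obtain ⟨K₁, hK₁⟩ : ∃ K₁ : ℝ, K₁ = 2 * K / θ ^ 3 + 1 := ⟨_, rfl⟩
  refine ⟨K₁, by rw [hK₁]; positivity, max X₁ ⌈X₂⌉₊, fun X hX x hx1 hx2 w hw => ?_⟩
  obtain ⟨q1, q2, q3, q4, q5, q6, q7, q8⟩ := hpar X ((le_max_left _ _).trans hX) x hx1 hx2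
  have hYY : Y₀ ≤ ⌈x⌉₊ := by
    have h1 := hX₂ X ((Nat.le_ceil _).trans (by exact_mod_cast (le_max_right _ _).trans hX))
    have h2 : (Y₀ : ℝ) ≤ ⌈x⌉₊ := h1.trans (hx1.trans (Nat.le_ceil x))
    exact_mod_cast h2
  obtain ⟨s1, s2, s3⟩ := hsv ⌈x⌉₊ hYY
  obtain ⟨Y, hY⟩ : ∃ Y, Y = ⌈x⌉₊ := ⟨_, rfl⟩
  rw [← hY] at q3 q4 q5 q6 q7 q8 s1 s2 s3 hYY
  obtain ⟨L, hL⟩ : ∃ L, L = Real.log (X : ℝ) := ⟨_, rfl⟩
  rw [← hL] at q2 q4 q7 q8 ⊢
  have hL0 : 0 < L := by linarith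
  have hx0 : 0 < x := by linarith
  have hlY : 0 < Real.log Y := lt_of_lt_of_le (by positivity) q4
  have hY0 : (0 : ℝ) ≤ Y := Nat.cast_nonneg _
  have c3 : (Y : ℝ) / Real.log Y ^ 3 ≤ 2 / θ ^ 3 * (x / L ^ 3) := by
    have h1 : (Y : ℝ) / Real.log Y ^ 3 ≤ 2 * x / (θ * L) ^ 3 := by
      apply div_le_div₀ (by positivity) q3 (by positivity)
      exact pow_le_pow_left₀ (by positivity) q4 3
    refine h1.trans (le_of_eq ?_)
    rw [mul_pow]
    field_simp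
  have c2 : (Y : ℝ) / Real.log Y ^ 2 ≤ 2 / θ ^ 3 * (x / L ^ 2) := by
    have h1 : (Y : ℝ) / Real.log Y ^ 2 ≤ 2 * x / (θ * L) ^ 2 := by
      apply div_le_div₀ (by positivity) q3 (by positivity)
      exact pow_le_pow_left₀ (by positivity) q4 2
    refine h1.trans ?_
    have h2 : 2 * x / (θ * L) ^ 2 = 2 / θ ^ 2 * (x / L ^ 2) := by
      rw [mul_pow]
      field_simp
    rw [h2]
    apply mul_le_mul_of_nonneg_right _ (by positivity)
    apply div_le_div_of_nonneg_left (by norm_num) (by positivity)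
    exact pow_le_pow_of_le_one hθ.le hθ1 (by norm_num)
  have hKK : 2 * K / θ ^ 3 ≤ K₁ := by rw [hK₁]; linarith
  have hh0 : ∀ m, 0 < hh m := fun m => by linarith [one_le_hh m]
  -- the elements of `PA`
  have hPA : ∀ N p : ℕ, p ∈ PA w x N → p ∈ Ioc 0 Y ∧ ∀ l : ℕ, l.Prime → (l : ℝ) ≤ (Y : ℝ) ^ κ →
      p % l ≠ 0 ∧ p % l ≠ N % l := by
    intro N p hp
    obtain ⟨h0, h1, h2, h3, h4⟩ := mem_PA.1 hp
    refine ⟨?_, ?_⟩
    · rw [mem_Ioc]
      refine ⟨h1.pos, ?_⟩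
      have : (p : ℝ) ≤ Y := by
        rw [hY]
        exact h3.le.trans (Nat.le_ceil x)
      exact_mod_cast this
    · intro l hl hlY
      have hlp : l < p := by
        have : (l : ℝ) < p := lt_of_le_of_lt (hlY.trans q5) h2
        exact_mod_cast this
      refine ⟨mod_ne h1 hl hlp, ?_⟩
      intro h
      have h5 := h4 l hl ((Nat.modEq_iff_dvd' h0.le).1 h)
      linarith
  refine ⟨?_, ?_, ?_, ?_⟩
  · intro N N' hN hNN
    have h1 := s1 N N' (by omega) hNN (PA w x N ∩ PA w x N') (by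
      intro p hp
      exact (hPA N p (mem_inter.1 hp).1).1) (by
      intro p hp l hl hlY
      obtain ⟨h2, h3⟩ := (hPA N p (mem_inter.1 hp).1).2 l hl hlY
      obtain ⟨h4, h5⟩ := (hPA N' p (mem_inter.1 hp).2).2 l hl hlY
      exact ⟨h2, h3, h5⟩)
    have hH : 0 < hh N * hh N' * hh (N' - N) := mul_pos (mul_pos (hh0 _) (hh0 _)) (hh0 _)
    refine h1.trans ?_
    calc K * (Y / Real.log Y ^ 3 * (hh N * hh N' * hh (N' - N))) ≤
        K * (2 / θ ^ 3 * (x / L ^ 3) * (hh N * hh N' * hh (N' - N))) := by gcongr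
      _ = 2 * K / θ ^ 3 * (x / L ^ 3 * (hh N * hh N' * hh (N' - N))) := by ring
      _ ≤ _ := mul_le_mul_of_nonneg_right hKK (by positivity)
  · intro N N' hN hNN
    obtain ⟨J, hJ⟩ : ∃ J, J = (PA w x N).image (fun p => N - p) ∩ (PA w x N').image (fun p => N' - p) := ⟨_, rfl⟩
    rw [← hJ]
    have hJm : ∀ m ∈ J, (N - m) ∈ PA w x N ∧ (N' - m) ∈ PA w x N' ∧ m < N := by
      intro m hm
      rw [hJ, mem_inter, mem_image, mem_image] at hm
      obtain ⟨⟨p, hp, h1⟩, ⟨p', hp', h2⟩⟩ := hm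
      have h3 := (mem_PA.1 hp).1
      have h4 := (mem_PA.1 hp').1
      have h5 := (mem_PA.1 hp).2.1.pos
      refine ⟨?_, ?_, by omega⟩
      · rw [show N - m = p by omega]; exact hp
      · rw [show N' - m = p' by omega]; exact hp'
    have hcard : J.card = (J.image (fun m => N' - m)).card := by
      rw [card_image_of_injOn]
      intro a ha b hb hab
      have h1 := (hJm a ha).2.2
      have h2 := (hJm b hb).2.2
      simp only at hab
      omega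
    rw [hcard]
    have h1 := s1 (N' - N) N' (by omega) (by omega) (J.image (fun m => N' - m)) (by
      intro p hp
      rw [mem_image] at hp
      obtain ⟨m, hm, rfl⟩ := hp
      exact (hPA N' _ (hJm m hm).2.1).1) (by
      intro p hp l hl hlY
      rw [mem_image] at hp
      obtain ⟨m, hm, rfl⟩ := hp
      obtain ⟨h2, h3, h4⟩ := hJm m hm
      obtain ⟨h5, h6⟩ := (hPA N' _ h3).2 l hl hlY
      refine ⟨h5, ?_, h6⟩
      intro h
      have h7 := (hPA N _ h2).2 l hl hlY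
      apply h7.1
      have h8 : l ∣ (N' - m) - (N' - N) := (Nat.modEq_iff_dvd' (by omega)).1 h.symm
      rw [show (N' - m) - (N' - N) = N - m by omega] at h8
      exact Nat.mod_eq_zero_of_dvd h8)
    rw [show N' - (N' - N) = N by omega] at h1
    have hH : 0 < hh N * hh N' * hh (N' - N) := mul_pos (mul_pos (hh0 _) (hh0 _)) (hh0 _)
    refine h1.trans ?_
    calc K * (Y / Real.log Y ^ 3 * (hh (N' - N) * hh N' * hh N)) =
        K * (Y / Real.log Y ^ 3 * (hh N * hh N' * hh (N' - N))) := by ring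
      _ ≤ K * (2 / θ ^ 3 * (x / L ^ 3) * (hh N * hh N' * hh (N' - N))) := by gcongr
      _ = 2 * K / θ ^ 3 * (x / L ^ 3 * (hh N * hh N' * hh (N' - N))) := by ring
      _ ≤ _ := mul_le_mul_of_nonneg_right hKK (by positivity)
  · intro N hN
    have h1 := s2 N (by omega) (PA w x N) (fun p hp => (hPA N p hp).1) (fun p hp => (hPA N p hp).2)
    have hH := hh0 N
    refine h1.trans ?_
    calc K * (Y / Real.log Y ^ 2 * hh N) ≤ K * (2 / θ ^ 3 * (x / L ^ 2) * hh N) := by gcongr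
      _ = 2 * K / θ ^ 3 * (x / L ^ 2 * hh N) := by ring
      _ ≤ _ := mul_le_mul_of_nonneg_right hKK (by positivity)
  · intro z hz hzL
    have hlz : 0 < Real.log z := Real.log_pos (by exact_mod_cast (by omega : 1 < z))
    have hlzL : Real.log z ≤ L := by
      have h1 : Real.log z ≤ z - 1 := Real.log_le_sub_one_of_pos (by exact_mod_cast (by omega : 0 < z))
      linarith
    have h1 := s3 z (by omega) (hzL.trans q8) ((RZ z x).filter (fun p : ℕ => (Y : ℝ) ^ κ < p)) (by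
      intro p hp
      rw [mem_filter, mem_RZ] at hp
      rw [mem_Ioc]
      refine ⟨hp.1.1.pos, ?_⟩
      have : (p : ℝ) ≤ Y := by
        rw [hY]
        exact hp.1.2.1.le.trans (Nat.le_ceil x)
      exact_mod_cast this) (by
      intro p hp l hl hlY
      rw [mem_filter, mem_RZ] at hp
      refine ⟨?_, fun h3 h4 => hp.1.2.2 l hl h3 h4⟩
      have hlp : l < p := by
        have : (l : ℝ) < p := lt_of_le_of_lt hlY hp.2
        exact_mod_cast this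
      exact mod_ne hp.1.1 hl hlp)
    have h2 : ((RZ z x).filter (fun p : ℕ => ¬ (Y : ℝ) ^ κ < p)).card ≤ ⌊(Y : ℝ) ^ κ⌋₊ := by
      have : (RZ z x).filter (fun p : ℕ => ¬ (Y : ℝ) ^ κ < p) ⊆ Ioc 0 ⌊(Y : ℝ) ^ κ⌋₊ := by
        intro p hp
        rw [mem_filter, mem_RZ] at hp
        rw [mem_Ioc]
        exact ⟨hp.1.1.pos, Nat.le_floor (not_lt.1 hp.2)⟩
      have h3 := card_le_card this
      rwa [Nat.card_Ioc, Nat.sub_zero] at h3
    have h3 : (((RZ z x).filter (fun p : ℕ => ¬ (Y : ℝ) ^ κ < p)).card : ℝ) ≤ x / L ^ 2 := by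
      calc (((RZ z x).filter (fun p : ℕ => ¬ (Y : ℝ) ^ κ < p)).card : ℝ) ≤ (⌊(Y : ℝ) ^ κ⌋₊ : ℝ) := by exact_mod_cast h2
        _ ≤ (Y : ℝ) ^ κ := Nat.floor_le (by positivity)
        _ ≤ _ := q7
    have h4 : ((RZ z x).card : ℝ) = ((RZ z x).filter (fun p : ℕ => (Y : ℝ) ^ κ < p)).card +
        ((RZ z x).filter (fun p : ℕ => ¬ (Y : ℝ) ^ κ < p)).card := by
      exact_mod_cast (card_filter_add_card_filter_not (s := RZ z x) (fun p : ℕ => (Y : ℝ) ^ κ < p)).symm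
    have h5 : x / L ^ 2 ≤ x / (L * Real.log z) := by
      apply div_le_div_of_nonneg_left hx0.le (by positivity)
      nlinarith
    have c1 : (Y : ℝ) / (Real.log Y * Real.log z) ≤ 2 / θ ^ 3 * (x / (L * Real.log z)) := by
      have h1 : (Y : ℝ) / (Real.log Y * Real.log z) ≤ 2 * x / ((θ * L) * Real.log z) := by
        apply div_le_div₀ (by positivity) q3 (by positivity)
        exact mul_le_mul_of_nonneg_right q4 hlz.le
      refine h1.trans ?_
      have h2 : 2 * x / ((θ * L) * Real.log z) = 2 / θ ^ 1 * (x / (L * Real.log z)) := by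
        field_simp
      rw [h2]
      apply mul_le_mul_of_nonneg_right _ (by positivity)
      apply div_le_div_of_nonneg_left (by norm_num) (by positivity)
      exact pow_le_pow_of_le_one hθ.le hθ1 (by norm_num)
    rw [h4]
    have h6 : 0 ≤ x / (L * Real.log z) := by positivity
    calc (((RZ z x).filter (fun p : ℕ => (Y : ℝ) ^ κ < p)).card : ℝ) +
        ((RZ z x).filter (fun p : ℕ => ¬ (Y : ℝ) ^ κ < p)).card
        ≤ K * (2 / θ ^ 3 * (x / (L * Real.log z))) + x / (L * Real.log z) := by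
          apply add_le_add
          · exact h1.trans (mul_le_mul_of_nonneg_left c1 hK.le)
          · exact h3.trans h5
      _ = (2 * K / θ ^ 3 + 1) * (x / (L * Real.log z)) := by ring
      _ = _ := by rw [hK₁]

end Pool.Agent.H563.AG
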