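import Pool.Graph.R_pool_sql_team_seeded_c8625f6e.K4H8.DP.Up

/-!
# The second moment inequality for families of sets with sieve type intersections
-/

set_option autoImplicit false

namespace Pool.Agent.H563.AG

open Finset
open Pool.Agent.K4H8.DP

/-- the size of the double logarithm -/
noncomputable def ll (X : ℕ) (m : ℝ) : ℝ := 1 + Real.log (1 + Real.log (2 * ((X : ℝ) + 1) / m))

lemma hh_one : hh 1 = 1 := by
  unfold hh
  simp

lemma avg_r {b : ℝ} (hb : 0 < b) (hW : ∀ K : ℕ, 2 ≤ K → W1 K ≤ b * Real.log K) {X : ℕ}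
    {N : Finset ℕ} (hN : ∀ n ∈ N, X < n ∧ n ≤ 2 * X) (hM : 1 ≤ N.card) (n : ℕ) (hn : n ∈ N) :
    ∑ n' ∈ N.filter (fun n' => n < n'), hh (n' - n) ≤ 2 * Real.exp 1 * b * (N.card * ll X N.card) := by
  have h := avg_right hb hW (q := 1) one_pos hN (fun a _ c _ => by rw [Nat.mod_one, Nat.mod_one]) hM n hn
  rw [hh_one, one_mul, Nat.cast_one, div_one] at h
  exact h

lemma avg_l {b : ℝ} (hb : 0 < b) (hW : ∀ K : ℕ, 2 ≤ K → W1 K ≤ b * Real.log K) {X : ℕ}
    {N : Finset ℕ} (hN : ∀ n ∈ N, X < n ∧ n ≤ 2 * X) (hM : 1 ≤ N.card) (n : ℕ) (hn : n ∈ N) :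
    ∑ n' ∈ N.filter (fun n' => n' < n), hh (n - n') ≤ 2 * Real.exp 1 * b * (N.card * ll X N.card) := by
  have h := avg_left hb hW (q := 1) one_pos hN (fun a _ c _ => by rw [Nat.mod_one, Nat.mod_one]) hM n hn
  rw [hh_one, one_mul, Nat.cast_one, div_one] at h
  exact h

/-- the second moment -/
lemma second {b K L x : ℝ} (hb : 0 < b) (hW : ∀ K : ℕ, 2 ≤ K → W1 K ≤ b * Real.log K) (hK : 0 < K)
    (hL : 0 < L) (hx : 0 < x) {X : ℕ} {N : Finset ℕ} (A : ℕ → Finset ℕ) (hN : ∀ n ∈ N, X < n ∧ n ≤ 2 * X)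
    (hM : 1 ≤ N.card)
    (h3 : ∀ n ∈ N, ∀ n' ∈ N, n < n' → ((A n ∩ A n').card : ℝ) ≤ K * (x / L ^ 3 * (hh n * hh n' * hh (n' - n))))
    (h2 : ∀ n ∈ N, ((A n).card : ℝ) ≤ K * (x / L ^ 2 * hh n)) :
    ∑ n ∈ N, ∑ n' ∈ N, 1 / hh n * (1 / hh n') * ((A n ∩ A n').card : ℝ) ≤
      K * (x / L ^ 3) * (N.card * L + 4 * Real.exp 1 * b * ((N.card : ℝ) ^ 2 * ll X N.card)) := by
  classical
  have hpos : ∀ n, 0 < hh n := fun n => by linarith [one_le_hh n]
  obtain ⟨Q, hQ⟩ : ∃ Q, Q = 2 * Real.exp 1 * b * (N.card * ll X N.card) := ⟨_, rfl⟩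
  have key : ∀ n ∈ N, ∑ n' ∈ N, 1 / hh n * (1 / hh n') * ((A n ∩ A n').card : ℝ) ≤
      K * (x / L ^ 2) + K * (x / L ^ 3) * (2 * Q) := by
    intro n hn
    have hn1 := hN n hn
    have e1 : ∑ n' ∈ N, 1 / hh n * (1 / hh n') * ((A n ∩ A n').card : ℝ) =
        ∑ n' ∈ N.filter (fun n' => n' = n), 1 / hh n * (1 / hh n') * ((A n ∩ A n').card : ℝ) +
        (∑ n' ∈ N.filter (fun n' => n < n'), 1 / hh n * (1 / hh n') * ((A n ∩ A n').card : ℝ) +
        ∑ n' ∈ N.filter (fun n' => n' < n), 1 / hh n * (1 / hh n') * ((A n ∩ A n').card : ℝ)) := by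
      rw [← sum_filter_add_sum_filter_not N (fun n' => n' = n)]
      congr 1
      rw [← sum_filter_add_sum_filter_not (N.filter (fun n' => ¬ n' = n)) (fun n' => n < n'), filter_filter,
        filter_filter]
      congr 1
      · apply sum_congr _ (fun _ _ => rfl)
        apply filter_congr
        intro x _
        omega
      · apply sum_congr _ (fun _ _ => rfl)
        apply filter_congr
        intro x _
        omega
    rw [e1]
    have k1 : ∑ n' ∈ N.filter (fun n' => n' = n), 1 / hh n * (1 / hh n') * ((A n ∩ A n').card : ℝ) ≤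
        K * (x / L ^ 2) := by
      have : N.filter (fun n' => n' = n) = {n} := by
        ext x
        rw [mem_filter, mem_singleton]
        constructor
        · exact fun h => h.2
        · rintro rfl
          exact ⟨hn, rfl⟩
      rw [this, sum_singleton, inter_self]
      have h4 := h2 n hn
      have h5 := one_le_hh n
      have h6 : 1 / hh n ≤ 1 := by
        rw [div_le_one (hpos n)]
        exact h5
      have h7 : 0 < 1 / hh n := by
        have := hpos n
        positivity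
      calc 1 / hh n * (1 / hh n) * ((A n).card : ℝ) ≤ 1 / hh n * (1 / hh n) * (K * (x / L ^ 2 * hh n)) :=
            mul_le_mul_of_nonneg_left h4 (by positivity)
        _ = K * (x / L ^ 2) * (1 / hh n) := by
            have := (hpos n).ne'
            field_simp
        _ ≤ K * (x / L ^ 2) * 1 := mul_le_mul_of_nonneg_left h6 (by positivity)
        _ = _ := mul_one _
    have k2 : ∑ n' ∈ N.filter (fun n' => n < n'), 1 / hh n * (1 / hh n') * ((A n ∩ A n').card : ℝ) ≤
        K * (x / L ^ 3) * Q := by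
      have h4 : ∀ n' ∈ N.filter (fun n' => n < n'), 1 / hh n * (1 / hh n') * ((A n ∩ A n').card : ℝ) ≤
          K * (x / L ^ 3) * hh (n' - n) := by
        intro n' hn'
        rw [mem_filter] at hn'
        have h5 := h3 n hn n' hn'.1 hn'.2
        have p1 := hpos n
        have p2 := hpos n'
        calc 1 / hh n * (1 / hh n') * ((A n ∩ A n').card : ℝ) ≤
            1 / hh n * (1 / hh n') * (K * (x / L ^ 3 * (hh n * hh n' * hh (n' - n)))) :=
              mul_le_mul_of_nonneg_left h5 (by positivity)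
          _ = _ := by field_simp
      refine (sum_le_sum h4).trans ?_
      rw [← mul_sum, hQ]
      exact mul_le_mul_of_nonneg_left (avg_r hb hW hN hM n hn) (by positivity)
    have k3 : ∑ n' ∈ N.filter (fun n' => n' < n), 1 / hh n * (1 / hh n') * ((A n ∩ A n').card : ℝ) ≤
        K * (x / L ^ 3) * Q := by
      have h4 : ∀ n' ∈ N.filter (fun n' => n' < n), 1 / hh n * (1 / hh n') * ((A n ∩ A n').card : ℝ) ≤
          K * (x / L ^ 3) * hh (n - n') := by
        intro n' hn'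
        rw [mem_filter] at hn'
        have h5 := h3 n' hn'.1 n hn hn'.2
        have p1 := hpos n
        have p2 := hpos n'
        rw [inter_comm]
        calc 1 / hh n * (1 / hh n') * ((A n' ∩ A n).card : ℝ) ≤
            1 / hh n * (1 / hh n') * (K * (x / L ^ 3 * (hh n' * hh n * hh (n - n')))) :=
              mul_le_mul_of_nonneg_left h5 (by positivity)
          _ = _ := by field_simp
      refine (sum_le_sum h4).trans ?_
      rw [← mul_sum, hQ]
      exact mul_le_mul_of_nonneg_left (avg_l hb hW hN hM n hn) (by positivity)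
    linarith
  refine (sum_le_sum key).trans ?_
  rw [sum_const, nsmul_eq_mul, hQ]
  apply le_of_eq
  field_simp
  ring

/-- the main inequality -/
lemma main_fam {b K L x κ ρ : ℝ} (hb : 0 < b) (hW : ∀ K : ℕ, 2 ≤ K → W1 K ≤ b * Real.log K) (hK : 0 < K)
    (hL : 0 < L) (hx : 0 < x) (hκ : 0 < κ) {X : ℕ} {N : Finset ℕ} (A : ℕ → Finset ℕ)
    (hN : ∀ n ∈ N, X < n ∧ n ≤ 2 * X) (hM : 1 ≤ N.card)
    (h3 : ∀ n ∈ N, ∀ n' ∈ N, n < n' → ((A n ∩ A n').card : ℝ) ≤ K * (x / L ^ 3 * (hh n * hh n' * hh (n' - n))))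
    (h2 : ∀ n ∈ N, ((A n).card : ℝ) ≤ K * (x / L ^ 2 * hh n)) (R : Finset ℕ)
    (hR : (R.card : ℝ) ≤ ρ * (x / L))
    (hlost : ∀ n ∈ N, κ * (x / L ^ 2 * hh n) ≤ ((R ∩ A n).card : ℝ)) :
    κ ^ 2 * (N.card : ℝ) ^ 2 ≤ ρ * (K * (N.card * L) + K * (4 * Real.exp 1 * b) *
      ((N.card : ℝ) ^ 2 * ll X N.card)) := by
  classical
  have hpos : ∀ n, 0 < hh n := fun n => by linarith [one_le_hh n]
  obtain ⟨a, ha⟩ : ∃ a : ℕ → ℝ, a = fun p => ∑ n ∈ N, if p ∈ A n then 1 / hh n else 0 := ⟨_, rfl⟩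
  obtain ⟨B, hB⟩ : ∃ B, B = ∑ n ∈ N, 1 / hh n * ((R ∩ A n).card : ℝ) := ⟨_, rfl⟩
  have h4 : κ * N.card * (x / L ^ 2) ≤ B := by
    rw [hB]
    calc κ * N.card * (x / L ^ 2) = ∑ _n ∈ N, κ * (x / L ^ 2) := by
          rw [sum_const, nsmul_eq_mul]
          ring
      _ ≤ _ := by
          apply sum_le_sum
          intro n hn
          have p := hpos n
          calc κ * (x / L ^ 2) = 1 / hh n * (κ * (x / L ^ 2 * hh n)) := by field_simp
            _ ≤ _ := mul_le_mul_of_nonneg_left (hlost n hn) (by positivity)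
  have hB2 : B = ∑ p ∈ R, a p := by
    rw [hB, ha, sum_comm]
    apply sum_congr rfl
    intro n _
    rw [← sum_filter, sum_const, nsmul_eq_mul, filter_mem_eq_inter]
    ring
  have h5 : B ^ 2 ≤ R.card * ∑ p ∈ R, a p ^ 2 := by
    rw [hB2]
    exact sq_sum_le_card_mul_sum_sq
  obtain ⟨U, hU⟩ : ∃ U, U = N.biUnion A := ⟨_, rfl⟩
  have hTU : ∀ n ∈ N, A n ⊆ U := by
    intro n hn
    rw [hU]
    exact subset_biUnion_of_mem A hn
  have h6 : ∑ p ∈ R, a p ^ 2 ≤ ∑ p ∈ U, a p ^ 2 := by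
    have e : ∑ p ∈ R, a p ^ 2 = ∑ p ∈ R.filter (fun p => p ∈ U), a p ^ 2 := by
      symm
      apply sum_filter_of_ne
      intro p _ hp
      by_contra hcon
      apply hp
      have : a p = 0 := by
        rw [ha]
        apply sum_eq_zero
        intro n hn
        rw [if_neg]
        exact fun h => hcon (hTU n hn h)
      rw [this]
      norm_num
    rw [e]
    apply sum_le_sum_of_subset_of_nonneg
    · intro p hp
      exact (mem_filter.1 hp).2
    · intro p _ _
      positivity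
  have h7 : ∑ p ∈ U, a p ^ 2 = ∑ n ∈ N, ∑ n' ∈ N, 1 / hh n * (1 / hh n') * ((A n ∩ A n').card : ℝ) := by
    have e1 : ∀ p ∈ U, a p ^ 2 = ∑ n ∈ N, ∑ n' ∈ N,
        if p ∈ A n ∩ A n' then 1 / hh n * (1 / hh n') else 0 := by
      intro p _
      rw [ha]
      dsimp only
      rw [pow_two, sum_mul_sum]
      apply sum_congr rfl
      intro n _
      apply sum_congr rfl
      intro n' _
      by_cases c1 : p ∈ A n
      · by_cases c2 : p ∈ A n'
        · rw [if_pos c1, if_pos c2, if_pos (mem_inter.2 ⟨c1, c2⟩)]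
        · rw [if_neg c2, if_neg (fun h => c2 (mem_inter.1 h).2), mul_zero]
      · rw [if_neg c1, if_neg (fun h => c1 (mem_inter.1 h).1), zero_mul]
    rw [sum_congr rfl e1, sum_comm]
    apply sum_congr rfl
    intro n hn
    rw [sum_comm]
    apply sum_congr rfl
    intro n' _
    rw [← sum_filter, sum_const, nsmul_eq_mul]
    have e2 : U.filter (fun p => p ∈ A n ∩ A n') = A n ∩ A n' := by
      ext p
      rw [mem_filter]
      constructor
      · exact fun h => h.2
      · exact fun h => ⟨hTU n hn (mem_inter.1 h).1, h⟩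
    rw [e2]
    ring
  have h8 := second hb hW hK hL hx A hN hM h3 h2
  rw [← h7] at h8
  obtain ⟨G, hG⟩ : ∃ G, G = (N.card : ℝ) ^ 2 * ll X N.card := ⟨_, rfl⟩
  rw [← hG] at h8 ⊢
  have hM0 : (0 : ℝ) < N.card := by exact_mod_cast hM
  have hccr : (N.card : ℝ) ≤ X := by
    have h1 : N ⊆ Ioc X (2 * X) := fun n hn => mem_Ioc.2 (hN n hn)
    have h2 := card_le_card h1
    rw [Nat.card_Ioc] at h2
    exact_mod_cast (by omega : N.card ≤ X)
  have hG0 : 0 ≤ G := by
    rw [hG]
    unfold ll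
    have : 0 ≤ Real.log (2 * ((X : ℝ) + 1) / N.card) := by
      apply Real.log_nonneg
      rw [le_div_iff₀ hM0, one_mul]
      have : (0 : ℝ) ≤ X := Nat.cast_nonneg _
      linarith
    have : 0 ≤ Real.log (1 + Real.log (2 * ((X : ℝ) + 1) / N.card)) := Real.log_nonneg (by linarith)
    positivity
  have hR0 : (0 : ℝ) ≤ R.card := Nat.cast_nonneg _
  have hexp := Real.exp_pos 1
  have h9 : (κ * N.card * (x / L ^ 2)) ^ 2 ≤ ρ * (x / L) * (K * (x / L ^ 3) * (N.card * L +
      4 * Real.exp 1 * b * G)) := by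
    calc (κ * N.card * (x / L ^ 2)) ^ 2 ≤ B ^ 2 := pow_le_pow_left₀ (by positivity) h4 2
      _ ≤ R.card * ∑ p ∈ R, a p ^ 2 := h5
      _ ≤ R.card * (K * (x / L ^ 3) * (N.card * L + 4 * Real.exp 1 * b * G)) :=
          mul_le_mul_of_nonneg_left (h6.trans h8) hR0
      _ ≤ _ := mul_le_mul_of_nonneg_right hR (by positivity)
  have e : (κ * N.card * (x / L ^ 2)) ^ 2 = κ ^ 2 * (N.card : ℝ) ^ 2 * (x ^ 2 / L ^ 4) := by
    field_simp
  have e2 : ρ * (x / L) * (K * (x / L ^ 3) * (N.card * L + 4 * Real.exp 1 * b * G)) =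
      ρ * (K * (N.card * L) + K * (4 * Real.exp 1 * b) * G) * (x ^ 2 / L ^ 4) := by
    field_simp
  rw [e, e2] at h9
  exact le_of_mul_le_mul_right h9 (by positivity)

end Pool.Agent.H563.AG
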