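import Mathlib

set_option autoImplicit false

/-! Two inequalities for real numbers. -/

namespace Pool.Agent.H563.AG

lemma real1 (κ K K' : ℝ) (hκ : 0 < κ) (hK : 0 < K) (hK' : 0 < K') : ∃ c : ℝ, 0 < c ∧ c ≤ 1 ∧ ∃ L₀ : ℝ, 1 ≤ L₀ ∧
    ∀ L : ℝ, L₀ ≤ L → ∀ X x t m : ℝ, 1 ≤ t → 1 ≤ m → 1 ≤ X → 0 < x → x ≤ X → t ≤ c * x / L ^ 2 →
    t * m ≤ c * x / (L * Real.log (Real.log (t * (X / x) * L))) →
    (8 * t * m * L / x) * (K * (m * L) + K' * (m ^ 2 * (1 + Real.log (1 + Real.log (2 * (X + 1) / m))))) < κ ^ 2 * m ^ 2 := by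
  obtain ⟨c, hc⟩ : ∃ c, c = min 1 (min (κ ^ 2 / (32 * K)) (κ ^ 2 / (128 * K'))) := ⟨_, rfl⟩
  have hc0 : 0 < c := by rw [hc]; positivity
  have hcK : c ≤ κ ^ 2 / (32 * K) := by rw [hc]; exact (min_le_right _ _).trans (min_le_left _ _)
  have hcK' : c ≤ κ ^ 2 / (128 * K') := by rw [hc]; exact (min_le_right _ _).trans (min_le_right _ _)
  rw [le_div_iff₀ (by positivity)] at hcK hcK'
  obtain ⟨s₀, hs₀⟩ : ∃ s₀, s₀ = 512 * K' / κ ^ 2 + 1 := ⟨_, rfl⟩
  have hs₀1 : 1 ≤ s₀ := by rw [hs₀]; have : 0 ≤ 512 * K' / κ ^ 2 := by positivity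
                           linarith
  refine ⟨c, hc0, by rw [hc]; exact min_le_left _ _, max (Real.exp (Real.exp 1)) (s₀ ^ 2), ?_, ?_⟩
  · refine le_trans ?_ (le_max_right _ _)
    nlinarith
  intro L hL X x t m ht hm hX hx hxX h1 h2
  have hL1 : Real.exp (Real.exp 1) ≤ L := (le_max_left _ _).trans hL
  have hL2 : s₀ ^ 2 ≤ L := (le_max_right _ _).trans hL
  have hL0 : 0 < L := lt_of_lt_of_le (Real.exp_pos _) hL1
  have ht0 : 0 < t := by linarith
  have hm0 : 0 < m := by linarith
  have hX0 : 0 < X := by linarith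
  obtain ⟨Q, hQ⟩ : ∃ Q, Q = t * (X / x) * L := ⟨_, rfl⟩
  have hXx : 1 ≤ X / x := by rw [le_div_iff₀ hx]; linarith
  have hQL : L ≤ Q := by
    rw [hQ]
    have : 1 ≤ t * (X / x) := by nlinarith
    nlinarith
  have hQ0 : 0 < Q := by linarith
  obtain ⟨v, hv⟩ : ∃ v, v = Real.log Q := ⟨_, rfl⟩
  have hve : Real.exp 1 ≤ v := by
    rw [hv, Real.le_log_iff_exp_le hQ0]
    exact hL1.trans hQL
  have hv0 : 0 < v := lt_of_lt_of_le (Real.exp_pos _) hve
  have hv1 : 1 ≤ v := by have := Real.add_one_le_exp (1 : ℝ); linarith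
  obtain ⟨Λ, hΛ⟩ : ∃ Λ, Λ = Real.log v := ⟨_, rfl⟩
  have hΛ1 : 1 ≤ Λ := by
    rw [hΛ, Real.le_log_iff_exp_le hv0]
    exact hve
  rw [← hQ, ← hv, ← hΛ, le_div_iff₀ (by positivity)] at h2
  rw [le_div_iff₀ (by positivity)] at h1
  obtain ⟨y, hy⟩ : ∃ y, y = 2 * (X + 1) / m := ⟨_, rfl⟩
  rw [← hy]
  have hy0 : 0 < y := by rw [hy]; positivity
  obtain ⟨g, hg⟩ : ∃ g, g = Real.log y := ⟨_, rfl⟩
  rw [← hg]
  have hyg : y = Real.exp g := by rw [hg, Real.exp_log hy0]
  -- `ll`
  have key : 8 * K' * (t * m * L / x) * (1 + Real.log (1 + g)) ≤ κ ^ 2 / 2 := by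
    rcases le_or_gt g (2 * v) with hgv | hgv
    · have e1 : Real.log (1 + g) ≤ 3 * Λ := by
        rcases le_or_gt (1 + g) 0 with h0 | h0
        · have : Real.log (1 + g) ≤ 3 * Λ ∨ True := Or.inr trivial
          have h3 : |1 + g| = -(1 + g) := abs_of_nonpos h0
          have h4 : m ≤ 2 * (X + 1) ∨ 2 * (X + 1) < m := le_or_gt _ _
          rcases h4 with h4 | h4
          · have : 1 ≤ y := by rw [hy, le_div_iff₀ hm0]; linarith
            have : 0 ≤ g := by rw [hg]; exact Real.log_nonneg this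
            linarith
          · exfalso
            have h5 : t * m * (L * Λ) ≤ c * x := h2
            have h6 : c * x ≤ X := by
              have : c ≤ 1 := by rw [hc]; exact min_le_left _ _
              nlinarith
            have h7 : 1 ≤ L * Λ := by nlinarith [Real.add_one_le_exp (1 : ℝ), Real.add_one_le_exp (Real.exp 1)]
            have h8 : m ≤ t * m * (L * Λ) := by
              have : m ≤ t * m := by nlinarith
              nlinarith
            linarith
        · have h3 : 1 + g ≤ v * Real.exp 2 := by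
            have : 3 ≤ Real.exp 2 := by
              have := Real.add_one_le_exp (2 : ℝ)
              linarith
            nlinarith
          have h4 := Real.log_le_log h0 h3
          rw [Real.log_mul hv0.ne' (Real.exp_pos _).ne', Real.log_exp, ← hΛ] at h4
          linarith
      have e2 : t * m * L / x * (4 * Λ) ≤ 4 * c := by
        rw [div_mul_eq_mul_div, div_le_iff₀ hx]
        nlinarith
      have e3 : 0 ≤ t * m * L / x := by positivity
      have e4 : t * m * L / x * (1 + Real.log (1 + g)) ≤ t * m * L / x * (4 * Λ) := by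
        apply mul_le_mul_of_nonneg_left _ e3
        linarith
      nlinarith
    · have hg0 : 0 < g := by linarith
      have e1 : Real.log (1 + g) ≤ g := by
        have := Real.log_le_sub_one_of_pos (show 0 < 1 + g by linarith)
        linarith
      have e2 : 1 + g ≤ 4 * Real.exp (g / 4) := by
        have := Real.add_one_le_exp (g / 4)
        linarith
      have e3 : t * m * L / x ≤ 4 * Q / y := by
        rw [hy, hQ, div_div_eq_mul_div, div_le_div_iff₀ hx (by positivity)]
        have : 4 * (t * (X / x) * L) * m * x = 4 * (t * m * L * X) := by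
          field_simp
        rw [this]
        have h5 : 0 < t * m * L := by positivity
        nlinarith
      have e4 : Q = Real.exp v := by rw [hv, Real.exp_log hQ0]
      have e5 : Q ≤ Real.exp (g / 2) := by
        rw [e4]
        exact Real.exp_le_exp.2 (by linarith)
      have e6 : s₀ ≤ Real.exp (g / 4) := by
        have h5 : s₀ ^ 2 ≤ Real.exp (g / 4) ^ 2 := by
          have : Real.exp (g / 4) ^ 2 = Real.exp (g / 2) := by
            rw [← Real.exp_nat_mul]
            congr 1
            push_cast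
            ring
          rw [this]
          linarith
        exact le_of_pow_le_pow_left₀ two_ne_zero (Real.exp_pos _).le h5
      obtain ⟨w, hw⟩ : ∃ w, w = Real.exp (g / 4) := ⟨_, rfl⟩
      have hw0 : 0 < w := by rw [hw]; exact Real.exp_pos _
      have e7 : y = w ^ 4 := by
        rw [hyg, hw, ← Real.exp_nat_mul]
        congr 1
        push_cast
        ring
      have e8 : Real.exp (g / 2) = w ^ 2 := by
        rw [hw, ← Real.exp_nat_mul]
        congr 1
        push_cast
        ring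
      rw [← hw] at e2 e6
      rw [e8] at e5
      have e9 : t * m * L / x * (1 + Real.log (1 + g)) ≤ 16 / w := by
        calc t * m * L / x * (1 + Real.log (1 + g)) ≤ (4 * Q / y) * (4 * w) := by
              apply mul_le_mul e3 (by linarith) (by have := Real.log_nonneg (show 1 ≤ 1 + g by linarith)
                                                    linarith) (by positivity)
          _ ≤ (4 * w ^ 2 / y) * (4 * w) := by gcongr
          _ = 16 / w := by
              rw [e7]
              field_simp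
              norm_num
      have e10 : 16 / w ≤ κ ^ 2 / (16 * K') := by
        rw [div_le_div_iff₀ hw0 (by positivity)]
        have h5 : 512 * K' / κ ^ 2 * κ ^ 2 = 512 * K' := by field_simp
        have h6 : 512 * K' / κ ^ 2 ≤ w := by linarith
        have h7 : 512 * K' ≤ w * κ ^ 2 := by
          rw [← h5]
          exact mul_le_mul_of_nonneg_right h6 (by positivity)
        nlinarith
      calc 8 * K' * (t * m * L / x) * (1 + Real.log (1 + g)) = 8 * K' * (t * m * L / x * (1 + Real.log (1 + g))) := by ring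
        _ ≤ 8 * K' * (κ ^ 2 / (16 * K')) := mul_le_mul_of_nonneg_left (e9.trans e10) (by positivity)
        _ = κ ^ 2 / 2 := by field_simp; norm_num
  have key2 : 8 * K * (t * L ^ 2 / x) ≤ κ ^ 2 / 4 := by
    have : t * L ^ 2 / x ≤ c := by rw [div_le_iff₀ hx]; exact h1
    nlinarith
  have hfin : (8 * t * m * L / x) * (K * (m * L) + K' * (m ^ 2 * (1 + Real.log (1 + g)))) =
      (8 * K * (t * L ^ 2 / x) + 8 * K' * (t * m * L / x) * (1 + Real.log (1 + g))) * m ^ 2 := by ring
  rw [hfin]
  have : 0 < κ ^ 2 := by positivity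
  exact mul_lt_mul_of_pos_right (by linarith) (by positivity)

lemma real2 (K : ℝ) (hK : 0 < K) : ∃ L₀ : ℝ, 1 ≤ L₀ ∧
    ∀ L : ℝ, L₀ ≤ L → ∀ X x t : ℝ, 1 ≤ t → 0 < x → x ≤ X → X = Real.exp L → t ≤ x / L ^ 2 →
    ∃ z : ℕ, 4 ≤ z ∧ (z : ℝ) ≤ L / 4 ∧ K * (x / (L * Real.log z)) / t + 4 ≤ X / 4 ^ z ∧
    K * (x / (L * Real.log z)) + t ≤ (2 * K + 1) * x / (L * Real.log (Real.log (t * (X / x) * L))) := by
  obtain ⟨A, hA⟩ : ∃ A : ℝ, A = 64 + K := ⟨_, rfl⟩
  refine ⟨Real.exp (A ^ 2), ?_, ?_⟩
  · exact Real.one_le_exp (by positivity)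
  intro L hL X x t ht hx hxX hX h1
  have hAL : A ^ 2 + 1 ≤ L := (Real.add_one_le_exp _).trans hL
  have hL0 : 0 < L := by nlinarith
  have ht0 : 0 < t := by linarith
  have hX0 : 0 < X := by linarith
  obtain ⟨Q, hQ⟩ : ∃ Q, Q = t * (X / x) * L := ⟨_, rfl⟩
  have hXx : 1 ≤ X / x := by rw [le_div_iff₀ hx]; linarith
  have hQL : L ≤ Q := by
    rw [hQ]
    have : 1 ≤ t * (X / x) := by nlinarith
    nlinarith
  have hQ0 : 0 < Q := by linarith
  rw [← hQ]
  obtain ⟨v, hv⟩ : ∃ v, v = Real.log Q := ⟨_, rfl⟩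
  rw [← hv]
  have hQv : Q = Real.exp v := by rw [hv, Real.exp_log hQ0]
  have hvA : A ^ 2 ≤ v := by
    rw [hv, Real.le_log_iff_exp_le hQ0]
    exact hL.trans hQL
  have hA64 : 64 ≤ A := by rw [hA]; linarith
  have hv0 : 0 < v := by nlinarith
  have hv64 : 4096 ≤ v := by nlinarith
  have hXQ : L * Q ≤ X := by
    rw [le_div_iff₀ (by positivity)] at h1
    have : L * Q * x = (t * L ^ 2) * X := by
      rw [hQ]
      field_simp
    have h3 : L * Q * x ≤ X * x := by
      rw [this, mul_comm X x]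
      exact mul_le_mul_of_nonneg_right h1 hX0.le
    exact le_of_mul_le_mul_right h3 hx
  have hvL : v ≤ L := by
    rw [← Real.exp_le_exp, ← hQv, ← hX]
    nlinarith
  obtain ⟨z, hz⟩ : ∃ z : ℕ, z = ⌊v / 4⌋₊ := ⟨_, rfl⟩
  have hz1 : (z : ℝ) ≤ v / 4 := by rw [hz]; exact Nat.floor_le (by positivity)
  have hz2 : v / 4 < z + 1 := by rw [hz]; exact Nat.lt_floor_add_one _
  have hz8 : v / 8 ≤ z := by linarith
  have hz4 : (4 : ℝ) ≤ z := by linarith
  have hz0 : (0 : ℝ) < z := by linarith
  obtain ⟨Λ, hΛ⟩ : ∃ Λ, Λ = Real.log v := ⟨_, rfl⟩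
  rw [← hΛ]
  have hlz1 : 1 ≤ Real.log z := by
    rw [Real.le_log_iff_exp_le hz0]
    linarith [Real.exp_one_lt_d9]
  have hlz2 : Λ / 2 ≤ Real.log z := by
    -- `√v ≤ v / 8`
    have h3 : Real.sqrt v ≤ v / 8 := by
      rw [Real.sqrt_le_left (by positivity)]
      nlinarith
    have h4 := Real.log_le_log (Real.sqrt_pos.2 hv0) (h3.trans hz8)
    rw [Real.log_sqrt hv0.le, ← hΛ] at h4
    exact h4
  have hΛ1 : 1 ≤ Λ := by
    rw [hΛ, Real.le_log_iff_exp_le hv0]
    linarith [Real.exp_one_lt_d9]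
  have hΛL : Λ ≤ L := by
    have : Λ ≤ v - 1 := by rw [hΛ]; exact Real.log_le_sub_one_of_pos hv0
    linarith
  refine ⟨z, by exact_mod_cast hz4, by linarith, ?_, ?_⟩
  · have h4z : (4 : ℝ) ^ z ≤ Real.exp (v / 2) := by
      have h5 : (4 : ℝ) ≤ Real.exp 2 := by
        have h6 : Real.exp 2 = Real.exp 1 * Real.exp 1 := by
          rw [← Real.exp_add]
          norm_num
        have := Real.exp_one_gt_d9
        rw [h6]
        nlinarith
      calc (4 : ℝ) ^ z ≤ Real.exp 2 ^ z := pow_le_pow_left₀ (by norm_num) h5 z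
        _ = Real.exp (z * 2) := by rw [← Real.exp_nat_mul]
        _ ≤ _ := Real.exp_le_exp.2 (by linarith)
    obtain ⟨w, hw⟩ : ∃ w, w = Real.exp (v / 2) := ⟨_, rfl⟩
    have hw0 : 0 < w := by rw [hw]; exact Real.exp_pos _
    have hQw : Q = w ^ 2 := by
      rw [hQv, hw, ← Real.exp_nat_mul]
      congr 1
      push_cast
      ring
    have hwA : 2 * K + 8 ≤ w := by
      have h5 := Real.add_one_le_exp (v / 2)
      rw [← hw] at h5
      nlinarith
    have h6 : K * (x / (L * Real.log z)) / t ≤ K * (X / Q) := by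
      have h7 : X / Q = x / (t * L) := by
        rw [hQ]
        field_simp
      rw [h7]
      have h8 : x / (L * Real.log z) ≤ x / L := by
        apply div_le_div_of_nonneg_left hx.le hL0
        nlinarith
      calc K * (x / (L * Real.log z)) / t ≤ K * (x / L) / t := by gcongr
        _ = _ := by field_simp
    have h7 : X / w ≤ X / 4 ^ z := by
      apply div_le_div_of_nonneg_left hX0.le (by positivity)
      rw [hw]
      exact h4z
    refine le_trans ?_ h7
    have h8 : X / Q = X / w / w := by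
      rw [hQw]
      field_simp
    have h9 : w ≤ X / w := by
      rw [le_div_iff₀ hw0]
      nlinarith
    rw [h8] at h6
    have h10 : K * (X / w / w) ≤ X / w / 2 := by
      rw [mul_div_assoc', div_le_div_iff₀ hw0 (by norm_num)]
      have : 0 < X / w := by positivity
      nlinarith
    linarith
  · have h3 : K * (x / (L * Real.log z)) ≤ 2 * K * (x / (L * Λ)) := by
      have h4 : x / (L * Real.log z) ≤ x / (L * (Λ / 2)) := by
        apply div_le_div_of_nonneg_left hx.le (by positivity)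
        exact mul_le_mul_of_nonneg_left hlz2 hL0.le
      have h5 : x / (L * (Λ / 2)) = 2 * (x / (L * Λ)) := by field_simp
      rw [h5] at h4
      nlinarith
    have h4 : t ≤ x / (L * Λ) := by
      refine h1.trans ?_
      apply div_le_div_of_nonneg_left hx.le (by positivity)
      nlinarith
    calc K * (x / (L * Real.log z)) + t ≤ 2 * K * (x / (L * Λ)) + x / (L * Λ) := by linarith
      _ = _ := by ring

end Pool.Agent.H563.AG
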