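import Mathlib

set_option autoImplicit false

/-! The function `m (1 + log (1 + log (2 X / m)))`. -/

namespace Pool.Agent.H563.AG

/-- the double logarithm -/
noncomputable def ell (X m : ℝ) : ℝ := 1 + Real.log (1 + Real.log (2 * X / m))

lemma ell_one_le {X m : ℝ} (hm : 0 < m) (hmX : m ≤ 2 * X) : 1 ≤ ell X m := by
  unfold ell
  have h1 : 0 ≤ Real.log (2 * X / m) := Real.log_nonneg (by rw [le_div_iff₀ hm]; linarith)
  have h2 : 0 ≤ Real.log (1 + Real.log (2 * X / m)) := Real.log_nonneg (by linarith)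
  linarith

/-- monotonicity -/
lemma ell_mono {X m M : ℝ} (hm : 0 < m) (hmM : m ≤ M) (hMX : M ≤ 2 * X) : m * ell X m ≤ M * ell X M := by
  have hM : 0 < M := by linarith
  have hX : 0 < X := by linarith
  obtain ⟨A, hA⟩ : ∃ A, A = Real.log (2 * X / M) := ⟨_, rfl⟩
  have hA0 : 0 ≤ A := by
    rw [hA]
    exact Real.log_nonneg (by rw [le_div_iff₀ hM]; linarith)
  obtain ⟨u, hu⟩ : ∃ u, u = M / m := ⟨_, rfl⟩
  have hu1 : 1 ≤ u := by rw [hu, le_div_iff₀ hm]; linarith
  have hlu : 0 ≤ Real.log u := Real.log_nonneg hu1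
  have hlu2 : Real.log u ≤ u - 1 := Real.log_le_sub_one_of_pos (by linarith)
  have h1 : Real.log (2 * X / m) = A + Real.log u := by
    rw [hA, hu, ← Real.log_mul (by positivity) (by positivity)]
    congr 1
    field_simp
  have h2 : Real.log (1 + Real.log (2 * X / m)) ≤ Real.log (1 + A) + (u - 1) := by
    rw [h1]
    have h3 : 1 + (A + Real.log u) ≤ (1 + A) * (1 + Real.log u) := by nlinarith
    have h4 := Real.log_le_log (by linarith) h3
    rw [Real.log_mul (by linarith) (by linarith)] at h4
    have h5 : Real.log (1 + Real.log u) ≤ Real.log u := by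
      have := Real.log_le_sub_one_of_pos (show 0 < 1 + Real.log u by linarith)
      linarith
    linarith
  have h3 : 1 ≤ ell X M := ell_one_le hM hMX
  have h4 : ell X m ≤ ell X M * u := by
    have : ell X m ≤ ell X M + (u - 1) := by
      unfold ell
      rw [← hA]
      linarith
    nlinarith
  calc m * ell X m ≤ m * (ell X M * u) := mul_le_mul_of_nonneg_left h4 hm.le
    _ = M * ell X M := by
        rw [hu]
        field_simp

/-- comparison -/
lemma ell_comp {X m : ℝ} (hX : 1 ≤ X) (hm : 0 < m) (hmX : m ≤ X) :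
    1 + Real.log (1 + Real.log (2 * (X + 1) / m)) ≤ 2 * ell X m := by
  have hA : 0 ≤ Real.log (2 * X / m) := Real.log_nonneg (by rw [le_div_iff₀ hm]; linarith)
  have h1 : Real.log (2 * (X + 1) / m) ≤ Real.log (2 * X / m) + 1 := by
    have h2 : 2 * (X + 1) / m ≤ 2 * X / m * Real.exp 1 := by
      rw [div_mul_eq_mul_div]
      apply div_le_div_of_nonneg_right _ hm.le
      have := Real.add_one_le_exp (1 : ℝ)
      nlinarith
    have h3 := Real.log_le_log (by positivity) h2
    rwa [Real.log_mul (by positivity) (Real.exp_pos _).ne', Real.log_exp] at h3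
  have h0 : 0 ≤ Real.log (2 * (X + 1) / m) := Real.log_nonneg (by rw [le_div_iff₀ hm]; linarith)
  have h2 : Real.log (1 + Real.log (2 * (X + 1) / m)) ≤ Real.log (1 + Real.log (2 * X / m)) + 1 := by
    have h3 : 1 + Real.log (2 * (X + 1) / m) ≤ (1 + Real.log (2 * X / m)) * Real.exp 1 := by
      have := Real.add_one_le_exp (1 : ℝ)
      nlinarith
    have h4 := Real.log_le_log (by linarith) h3
    rwa [Real.log_mul (by linarith) (Real.exp_pos _).ne', Real.log_exp] at h4
  have h3 : 0 ≤ Real.log (1 + Real.log (2 * X / m)) := Real.log_nonneg (by linarith)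
  unfold ell
  linarith

/-- the choice of the sieving limit for the lower bound -/
lemma realz : ∃ X₀ : ℝ, ∀ X M : ℝ, X₀ ≤ X → 1 ≤ M → 2 * M ≤ X →
    (ell X M ≤ 20 ∨ ∃ z : ℕ, 4 ≤ z ∧ (z : ℝ) ≤ Real.log (2 * X / M) / 4 ∧ (z : ℝ) ≤ Real.log X ∧
      M + 3 ≤ X / 4 ^ z ∧ ell X M ≤ 8 * Real.log z) := by
  refine ⟨4096 ^ 4, fun X M hX hM hMX => ?_⟩
  have hX0 : 0 < X := by
    have : (0 : ℝ) < 4096 ^ 4 := by positivity
    linarith
  obtain ⟨Q, hQ⟩ : ∃ Q, Q = 2 * X / M := ⟨_, rfl⟩
  have hQ0 : 0 < Q := by rw [hQ]; positivity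
  obtain ⟨v, hv⟩ : ∃ v, v = Real.log Q := ⟨_, rfl⟩
  have hellv : ell X M = 1 + Real.log (1 + v) := by unfold ell; rw [← hQ, ← hv]
  have hQ4 : 4 ≤ Q := by rw [hQ, le_div_iff₀ (by linarith)]; linarith
  have hv0 : 0 < v := by rw [hv]; exact Real.log_pos (by linarith)
  rcases le_or_gt v 4096 with h | h
  · left
    rw [hellv]
    have h1 : Real.log (1 + v) ≤ Real.log (2 ^ 13) := Real.log_le_log (by linarith) (by norm_num; linarith)
    rw [Real.log_pow] at h1
    push_cast at h1
    linarith [Real.log_two_lt_d9]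
  · right
    obtain ⟨z, hz⟩ : ∃ z : ℕ, z = ⌊v / 4⌋₊ := ⟨_, rfl⟩
    have hz1 : (z : ℝ) ≤ v / 4 := by rw [hz]; exact Nat.floor_le (by positivity)
    have hz2 : v / 4 < z + 1 := by rw [hz]; exact Nat.lt_floor_add_one _
    have hz8 : v / 8 ≤ z := by linarith
    have hz4 : (4 : ℝ) ≤ z := by linarith
    have hz0 : (0 : ℝ) < z := by linarith
    have hQv : Q = Real.exp v := by rw [hv, Real.exp_log hQ0]
    have hQX : Q ≤ 2 * X := by
      rw [hQ, div_le_iff₀ (by linarith)]
      nlinarith
    have hvX : v ≤ 2 * Real.log X := by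
      have h1 : Real.log (2 * X) ≤ Real.log (X * X) := by
        apply Real.log_le_log (by linarith)
        have : (2 : ℝ) ≤ X := by
          have : (2 : ℝ) ≤ 4096 ^ 4 := by norm_num
          linarith
        nlinarith
      rw [Real.log_mul hX0.ne' hX0.ne'] at h1
      have h2 : v ≤ Real.log (2 * X) := by rw [hv]; exact Real.log_le_log hQ0 hQX
      linarith
    refine ⟨z, by exact_mod_cast hz4, ?_, by linarith, ?_, ?_⟩
    · rw [← hQ, ← hv]
      exact hz1
    · -- the number of the integers
      obtain ⟨w, hw⟩ : ∃ w, w = Real.exp (v / 2) := ⟨_, rfl⟩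
      have hw0 : 0 < w := by rw [hw]; exact Real.exp_pos _
      have hQw : Q = w ^ 2 := by
        rw [hQv, hw, ← Real.exp_nat_mul]
        congr 1
        push_cast
        ring
      have h4z : (4 : ℝ) ^ z ≤ w := by
        have h5 : (4 : ℝ) ≤ Real.exp 2 := by
          have h6 : Real.exp 2 = Real.exp 1 * Real.exp 1 := by
            rw [← Real.exp_add]
            norm_num
          have := Real.exp_one_gt_d9
          rw [h6]
          nlinarith
        rw [hw]
        calc (4 : ℝ) ^ z ≤ Real.exp 2 ^ z := pow_le_pow_left₀ (by norm_num) h5 z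
          _ = Real.exp (z * 2) := by rw [← Real.exp_nat_mul]
          _ ≤ _ := Real.exp_le_exp.2 (by linarith)
      have hw8 : 8 ≤ w := by
        have h5 := Real.add_one_le_exp (v / 2)
        rw [← hw] at h5
        linarith
      have h7 : X / w ≤ X / 4 ^ z := div_le_div_of_nonneg_left hX0.le (by positivity) h4z
      refine le_trans ?_ h7
      have hM2 : M = 2 * X / w / w := by
        have : M = 2 * X / Q := by
          rw [hQ]
          field_simp
        rw [this, hQw]
        field_simp
      have h8 : M ≤ X / w / 4 := by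
        rw [hM2, div_div, div_div, div_le_div_iff₀ (by positivity) (by positivity)]
        nlinarith [mul_pos hX0 hw0]
      have h9 : 4 ≤ X / w := by
        rw [le_div_iff₀ hw0]
        have h10 : w ^ 2 ≤ 2 * X := by rw [← hQw]; exact hQX
        by_contra hcon
        push Not at hcon
        have h11 : (4096 : ℝ) ^ 4 ≤ 4 * w := by linarith
        nlinarith
      linarith
    · rw [hellv]
      have h3 : Real.sqrt v ≤ v / 8 := by
        rw [Real.sqrt_le_left (by positivity)]
        nlinarith
      have h4 := Real.log_le_log (Real.sqrt_pos.2 hv0) (h3.trans hz8)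
      rw [Real.log_sqrt hv0.le] at h4
      have h5 : Real.log (1 + v) ≤ Real.log (2 * v) := Real.log_le_log (by linarith) (by linarith)
      rw [Real.log_mul (by norm_num) hv0.ne'] at h5
      have h6 : 2 ≤ Real.log v := by
        rw [Real.le_log_iff_exp_le hv0]
        have h7 : Real.exp 2 = Real.exp 1 * Real.exp 1 := by
          rw [← Real.exp_add]
          norm_num
        rw [h7]
        nlinarith [Real.exp_one_lt_d9, Real.exp_pos 1]
      linarith [Real.log_two_lt_d9]

end Pool.Agent.H563.AG
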