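import Pool.Graph.R_pool_sql_team_seeded_c8625f6e.K4H8.DP.Siv2
import Pool.Graph.R_pool_sql_team_seeded_c8625f6e.Results.MP_7b7e48_nt.DeletedPrimes

/-!
# Upper bounds of the sieve with an arbitrary small exponent
-/

set_option autoImplicit false

namespace Pool.Agent.H563.AG

open Finset
open Pool.Agent.Y843.HS (Pr VV)
open Pool.Agent.Y843.AC (OK Av APs S_UPA)
open Pool.Agent.K4H8.DP

/-- the sieve bound with exponent `κ` -/
lemma sbk (κ : ℝ) (hκ : 0 < κ) : ∃ C : ℝ, 0 < C ∧ ∃ X₀ : ℕ, ∀ X : ℕ, X₀ ≤ X → ∀ Z : ℕ → Finset ℕ, OK 3 κ X Z →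
    ∀ S ⊆ Ioc 0 X, (∀ n ∈ S, Av κ X Z n) → (S.card : ℝ) ≤ C * X * VV Z 0 ⌊(X : ℝ) ^ κ⌋₊ := by
  classical
  obtain ⟨C, hC, B, X₀, h0⟩ := Pool.Agent.Y843.AC.upa_all 3 1 κ le_rfl hκ
  refine ⟨C, hC, max X₀ 1, fun X hX Z hZ S hS hA => ?_⟩
  obtain ⟨D, hD⟩ : ∃ D : ℕ, D = ⌈Real.log X ^ B⌉₊ + 1 := ⟨_, rfl⟩
  have hD1 : Real.log X ^ B ≤ D := by
    rw [hD]
    push_cast
    linarith [Nat.le_ceil (Real.log X ^ B)]
  have hD0 : (0 : ℝ) < D := by
    rw [hD]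
    push_cast
    positivity
  have h1 := h0 X 0 D ((le_max_left _ _).trans hX) hD1 Z hZ S (by rwa [zero_add]) hA
  have h2 : (APs 1 D S).card = S.card * D := by
    have : APs 1 D S = S ×ˢ Icc 1 D := by
      unfold APs
      apply filter_true_of_mem
      intro q hq j hj
      have : j = 0 := by omega
      subst this
      rw [zero_mul, add_zero]
      exact (mem_product.1 hq).1
    rw [this, card_product, Nat.card_Icc, Nat.add_sub_cancel]
  rw [h2] at h1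
  push_cast at h1
  rw [pow_one] at h1
  have h3 : (S.card : ℝ) * D ≤ (C * X * VV Z 0 ⌊(X : ℝ) ^ κ⌋₊) * D := by
    calc (S.card : ℝ) * D ≤ C * X * D * VV Z 0 ⌊(X : ℝ) ^ κ⌋₊ := h1
      _ = _ := by ring
  exact le_of_mul_le_mul_right h3 hD0

lemma Z3_okk (κ : ℝ) (n n' X : ℕ) : OK 3 κ X (Z3 n n') := by
  intro p hp _
  unfold Z3
  split_ifs with h
  · refine ⟨by simp, by simpa using hp.one_lt, ?_⟩
    intro c hc
    rw [mem_singleton] at hc
    rw [hc]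
    exact hp.pos
  · have h3 : ({0, n % p, n' % p} : Finset ℕ).card ≤ 3 := card_le_three
    refine ⟨h3, by omega, ?_⟩
    intro c hc
    rw [mem_insert, mem_insert, mem_singleton] at hc
    rcases hc with rfl | rfl | rfl
    · exact hp.pos
    · exact Nat.mod_lt _ hp.pos
    · exact Nat.mod_lt _ hp.pos

lemma Z2_okk (κ : ℝ) (n X : ℕ) : OK 3 κ X (Z2 n) := by
  intro p hp _
  unfold Z2
  split_ifs with h
  · refine ⟨by simp, by simpa using hp.one_lt, ?_⟩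
    intro c hc
    rw [mem_singleton] at hc
    rw [hc]
    exact hp.pos
  · have h3 : ({0, n % p} : Finset ℕ).card ≤ 2 := card_le_two
    refine ⟨by omega, by omega, ?_⟩
    intro c hc
    rw [mem_insert, mem_singleton] at hc
    rcases hc with rfl | rfl
    · exact hp.pos
    · exact Nat.mod_lt _ hp.pos

lemma Zs_okk (κ : ℝ) (z X : ℕ) : OK 3 κ X (Zs z) := by
  intro p hp _
  unfold Zs
  split_ifs with h
  · have h3 : ({0, 2 % p} : Finset ℕ).card ≤ 2 := card_le_two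
    refine ⟨by omega, by omega, ?_⟩
    intro c hc
    rw [mem_insert, mem_singleton] at hc
    rcases hc with rfl | rfl
    · exact hp.pos
    · exact Nat.mod_lt _ hp.pos
  · refine ⟨by simp, by simpa using hp.one_lt, ?_⟩
    intro c hc
    rw [mem_singleton] at hc
    rw [hc]
    exact hp.pos

/-- the size of the root -/
lemma root_k (κ : ℝ) (hκ : 0 < κ) : ∃ Y₀ : ℕ, 2 ≤ Y₀ ∧ ∀ Y : ℕ, Y₀ ≤ Y → 2 ≤ ⌊(Y : ℝ) ^ κ⌋₊ ∧
    κ / 2 * Real.log Y ≤ Real.log (⌊(Y : ℝ) ^ κ⌋₊ : ℕ) ∧ 1 ≤ Real.log Y := by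
  have e1 := (tendsto_rpow_atTop (show (0 : ℝ) < κ / 2 by positivity)).eventually
    (Filter.eventually_ge_atTop (2 : ℝ))
  have e3 := Real.tendsto_log_atTop.eventually_ge_atTop 1
  obtain ⟨x₀, h0⟩ := Filter.eventually_atTop.1 ((e1.and e3).and (Filter.eventually_ge_atTop (1 : ℝ)))
  refine ⟨max ⌈x₀⌉₊ 2, le_max_right _ _, fun X hX => ?_⟩
  obtain ⟨⟨h1, h3⟩, h5⟩ := h0 X ((Nat.le_ceil _).trans (by
    exact_mod_cast (le_max_left _ _).trans hX))
  have hX0 : (0 : ℝ) < X := by linarith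
  have h14 : (X : ℝ) ^ κ = (X : ℝ) ^ (κ / 2) * (X : ℝ) ^ (κ / 2) := by
    rw [← Real.rpow_add hX0, add_halves]
  have hfl := Nat.lt_floor_add_one ((X : ℝ) ^ κ)
  have hlow : (X : ℝ) ^ (κ / 2) ≤ (⌊(X : ℝ) ^ κ⌋₊ : ℝ) := by
    rw [h14] at hfl ⊢
    nlinarith
  refine ⟨?_, ?_, h3⟩
  · have : (2 : ℝ) ≤ (⌊(X : ℝ) ^ κ⌋₊ : ℝ) := h1.trans hlow
    exact_mod_cast this
  · have h6 := Real.log_le_log (by positivity) hlow
    rwa [Real.log_rpow hX0] at h6

/-- the three bounds of the sieve -/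
lemma sieves (κ : ℝ) (hκ : 0 < κ) : ∃ K : ℝ, 0 < K ∧ ∃ Y₀ : ℕ, 2 ≤ Y₀ ∧ ∀ Y : ℕ, Y₀ ≤ Y →
    (∀ n n' : ℕ, 0 < n → n < n' → ∀ A ⊆ Ioc 0 Y, (∀ p ∈ A, ∀ l : ℕ, l.Prime → (l : ℝ) ≤ (Y : ℝ) ^ κ →
      p % l ≠ 0 ∧ p % l ≠ n % l ∧ p % l ≠ n' % l) →
      (A.card : ℝ) ≤ K * (Y / Real.log Y ^ 3 * (hh n * hh n' * hh (n' - n)))) ∧
    (∀ n : ℕ, 0 < n → ∀ A ⊆ Ioc 0 Y, (∀ p ∈ A, ∀ l : ℕ, l.Prime → (l : ℝ) ≤ (Y : ℝ) ^ κ →
      p % l ≠ 0 ∧ p % l ≠ n % l) → (A.card : ℝ) ≤ K * (Y / Real.log Y ^ 2 * hh n)) ∧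
    (∀ z : ℕ, 2 ≤ z → (z : ℝ) ≤ (Y : ℝ) ^ κ → ∀ A ⊆ Ioc 0 Y, (∀ p ∈ A, ∀ l : ℕ, l.Prime →
      (l : ℝ) ≤ (Y : ℝ) ^ κ → p % l ≠ 0 ∧ (3 < l → l ≤ z → p % l ≠ 2 % l)) →
      (A.card : ℝ) ≤ K * (Y / (Real.log Y * Real.log z))) := by
  classical
  obtain ⟨C, hC, X₀, hS⟩ := sbk κ hκ
  obtain ⟨a, b, ha, hb, hM⟩ := Pool.Agent.Results.MP_7b7e48_nt.DeletedPrimes.mert_ex
  obtain ⟨Y₁, hY₁, hr⟩ := root_k κ hκ
  obtain ⟨D, hD⟩ : ∃ D : ℝ, D = 2 / (a * κ) := ⟨_, rfl⟩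
  have hD0 : 0 < D := by rw [hD]; positivity
  obtain ⟨K, hK⟩ : ∃ K : ℝ, K = 16 * C * (D ^ 3 + D ^ 2 + D * (1 / a)) := ⟨_, rfl⟩
  refine ⟨K, by rw [hK]; positivity, max X₀ Y₁, hY₁.trans (le_max_right _ _), fun Y hY => ?_⟩
  obtain ⟨r1, r2, r3⟩ := hr Y ((le_max_right _ _).trans hY)
  have hsieve := hS Y ((le_max_left _ _).trans hY)
  obtain ⟨y, hy⟩ : ∃ y, y = ⌊(Y : ℝ) ^ κ⌋₊ := ⟨_, rfl⟩
  rw [← hy] at r1 r2 hsieve
  have hY2 : 2 ≤ Y := hY₁.trans ((le_max_right _ _).trans hY)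
  have hYr : (0 : ℝ) < Y := by exact_mod_cast (by omega : 0 < Y)
  obtain ⟨L, hL⟩ : ∃ L, L = Real.log (Y : ℝ) := ⟨_, rfl⟩
  rw [← hL] at r2 r3 ⊢
  have hL0 : 0 < L := by linarith
  have hWy : (W1 y)⁻¹ ≤ D / L := by
    have h1 := (hM y r1).1
    have h2 : a * (κ / 2 * L) ≤ W1 y := (mul_le_mul_of_nonneg_left r2 ha.le).trans h1
    have h3 : D / L = (a * (κ / 2 * L))⁻¹ := by
      rw [hD]
      field_simp
    rw [h3]
    exact inv_anti₀ (by positivity) h2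
  have hWy0 : 0 < (W1 y)⁻¹ := inv_pos.2 (W1_pos y)
  have hH0 : ∀ m, 0 < hh m := fun m => by linarith [one_le_hh m]
  refine ⟨?_, ?_, ?_⟩
  · intro n n' hn hnn A hA hAv
    have k8 := hsieve (Z3 n n') (Z3_okk κ n n' _) A hA (by
      intro p hp l hl hlX hmem
      obtain ⟨h1, h2, h3⟩ := hAv p hp l hl hlX
      unfold Z3 at hmem
      split_ifs at hmem
      · exact h1 (mem_singleton.1 hmem)
      · rw [mem_insert, mem_insert, mem_singleton] at hmem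
        rcases hmem with h | h | h
        · exact h1 h
        · exact h2 h
        · exact h3 h)
    have k9 := VV3 hn hnn y
    obtain ⟨H, hH⟩ : ∃ H, H = hh n * hh n' * hh (n' - n) := ⟨_, rfl⟩
    rw [← hH] at k9 ⊢
    have hHp : 0 < H := by
      rw [hH]
      exact mul_pos (mul_pos (hH0 _) (hH0 _)) (hH0 _)
    have k10 : (W1 y)⁻¹ ^ 3 ≤ D ^ 3 / L ^ 3 := by
      rw [← div_pow]
      exact pow_le_pow_left₀ hWy0.le hWy 3
    have k15 : 16 * C * D ^ 3 ≤ K := by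
      rw [hK]
      have : 0 ≤ 16 * C * (D ^ 2 + D * (1 / a)) := by positivity
      linarith
    have k14 : 0 ≤ Y / L ^ 3 * H := by positivity
    calc (A.card : ℝ) ≤ C * Y * VV (Z3 n n') 0 y := k8
      _ ≤ C * Y * (16 * (D ^ 3 / L ^ 3) * H) := by
          apply mul_le_mul_of_nonneg_left _ (by positivity)
          refine k9.trans ?_
          gcongr
      _ = 16 * C * D ^ 3 * (Y / L ^ 3 * H) := by ring
      _ ≤ _ := mul_le_mul_of_nonneg_right k15 k14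
  · intro n hn A hA hAv
    have k8 := hsieve (Z2 n) (Z2_okk κ n _) A hA (by
      intro p hp l hl hlX hmem
      obtain ⟨h1, h2⟩ := hAv p hp l hl hlX
      unfold Z2 at hmem
      split_ifs at hmem
      · exact h1 (mem_singleton.1 hmem)
      · rw [mem_insert, mem_singleton] at hmem
        rcases hmem with h | h
        · exact h1 h
        · exact h2 h)
    have k9 := VV2 hn y
    have hHp := hH0 n
    have k10 : (W1 y)⁻¹ ^ 2 ≤ D ^ 2 / L ^ 2 := by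
      rw [← div_pow]
      exact pow_le_pow_left₀ hWy0.le hWy 2
    have k15 : 16 * C * D ^ 2 ≤ K := by
      rw [hK]
      have : 0 ≤ 16 * C * (D ^ 3 + D * (1 / a)) := by positivity
      linarith
    have k14 : 0 ≤ Y / L ^ 2 * hh n := by positivity
    calc (A.card : ℝ) ≤ C * Y * VV (Z2 n) 0 y := k8
      _ ≤ C * Y * (16 * (D ^ 2 / L ^ 2) * hh n) := by
          apply mul_le_mul_of_nonneg_left _ (by positivity)
          refine k9.trans ?_
          gcongr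
      _ = 16 * C * D ^ 2 * (Y / L ^ 2 * hh n) := by ring
      _ ≤ _ := mul_le_mul_of_nonneg_right k15 k14
  · intro z hz hzY A hA hAv
    have hzy : z ≤ y := by
      rw [hy]
      exact Nat.le_floor hzY
    have k8 := hsieve (Zs z) (Zs_okk κ z _) A hA (by
      intro p hp l hl hlX hmem
      obtain ⟨h1, h2⟩ := hAv p hp l hl hlX
      unfold Zs at hmem
      split_ifs at hmem with hc
      · rw [mem_insert, mem_singleton] at hmem
        rcases hmem with h | h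
        · exact h1 h
        · exact h2 hc.1 hc.2 h
      · exact h1 (mem_singleton.1 hmem))
    have k9 := VVs hzy
    have hlz : 0 < Real.log z := Real.log_pos (by exact_mod_cast (by omega : 1 < z))
    have hWz : (W1 z)⁻¹ ≤ 1 / a / Real.log z := by
      have h1 := (hM z hz).1
      have h3 : 1 / a / Real.log z = (a * Real.log z)⁻¹ := by
        field_simp
      rw [h3]
      exact inv_anti₀ (by positivity) h1
    have hWz0 : 0 < (W1 z)⁻¹ := inv_pos.2 (W1_pos z)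
    have k15 : 16 * C * (D * (1 / a)) ≤ K := by
      rw [hK]
      have : 0 ≤ 16 * C * (D ^ 3 + D ^ 2) := by positivity
      linarith
    have k14 : 0 ≤ Y / (L * Real.log z) := by positivity
    calc (A.card : ℝ) ≤ C * Y * VV (Zs z) 0 y := k8
      _ ≤ C * Y * (16 * (D / L) * (1 / a / Real.log z)) := by
          apply mul_le_mul_of_nonneg_left _ (by positivity)
          refine k9.trans ?_
          gcongr
      _ = 16 * C * (D * (1 / a)) * (Y / (L * Real.log z)) := by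
          field_simp
      _ ≤ _ := mul_le_mul_of_nonneg_right k15 k14

end Pool.Agent.H563.AG
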